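import Pool.Agent.Helper16.CB.Defs

/-! Project CB, A7b: squares modulo powers of a prime from squares modulo the prime. -/

set_option autoImplicit false

namespace Pool.Agent.Helper38.CB

open NumberField Pool.Agent.Helper16.CB

/-- an element of valuation `n` is `π ^ n t / s` with `s, t` prime to `p` -/
theorem exists_quot {R : Type*} [CommRing R] [IsDedekindDomain R] {p : Ideal R} (hp : p.IsPrime)
    (hp0 : p ≠ ⊥) {π x : R} (hπ : π ∈ p) (hπ2 : π ∉ p ^ 2) {n : ℕ} (hx : Val p x n) :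
    ∃ s t : R, s ∉ p ∧ t ∉ p ∧ s * x = π ^ n * t := by
  have hpp : Prime p := Ideal.prime_of_isPrime hp0 hp
  obtain ⟨c, hc⟩ : p ∣ Ideal.span {π} := Ideal.dvd_span_singleton.2 hπ
  have hcp : ¬ c ≤ p := by
    intro h
    apply hπ2
    rw [← Ideal.span_singleton_le_iff_mem, hc, pow_two]
    exact Ideal.mul_mono le_rfl h
  have hcn : ¬ c ^ n ≤ p := fun h => hcp (hp.le_of_pow_le h)
  obtain ⟨s, hs, hsp⟩ := SetLike.not_le_iff_exists.1 hcn
  have h1 : s * x ∈ Ideal.span {π ^ n} := by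
    rw [← Ideal.span_singleton_pow, hc, mul_pow, mul_comm (p ^ n)]
    exact Ideal.mul_mem_mul hs hx.1
  obtain ⟨t, ht⟩ := Ideal.mem_span_singleton.1 h1
  refine ⟨s, t, hsp, fun htp => ?_, ht⟩
  apply hx.2
  have h2 : s * x ∈ p ^ (n + 1) := by
    rw [ht, pow_succ]
    exact Ideal.mul_mem_mul (Ideal.pow_mem_pow hπ n) htp
  -- `s ∉ p`
  have h3 : Ideal.span {s} * Ideal.span {x} ≤ p ^ (n + 1) := by
    rw [Ideal.span_singleton_mul_span_singleton, Ideal.span_singleton_le_iff_mem]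
    exact h2
  have h4 : p ^ (n + 1) ∣ Ideal.span {s} * Ideal.span {x} := Ideal.dvd_iff_le.2 h3
  have h5 : ¬ p ∣ Ideal.span {s} := fun h => hsp (Ideal.dvd_span_singleton.1 h)
  have h6 := hpp.pow_dvd_of_dvd_mul_left (n + 1) h5 h4
  exact Ideal.dvd_span_singleton.1 h6

/-- A7b from A6 for the prime `p = q ∩ K` -/
theorem sq_val_of {K L : Type*} [Field K] [NumberField K] [Field L] [NumberField L] [Algebra K L]
    {q : Ideal (𝓞 L)} (hq : q.IsPrime)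
    (hodd : Odd (Ideal.absNorm (q.comap (algebraMap (𝓞 K) (𝓞 L)))))
    (hsq : ∀ y : 𝓞 K, y ∉ q.comap (algebraMap (𝓞 K) (𝓞 L)) →
      ∃ γ : 𝓞 L, algebraMap (𝓞 K) (𝓞 L) y - γ ^ 2 ∈ q)
    {x : 𝓞 K} {m e : ℕ} (hx : Val (q.comap (algebraMap (𝓞 K) (𝓞 L))) x (2 * m))
    (he : ∀ (x : 𝓞 K) (m : ℕ), x ∈ (q.comap (algebraMap (𝓞 K) (𝓞 L))) ^ m →
        algebraMap (𝓞 K) (𝓞 L) x ∈ q ^ (e * m)) :
    ∃ h : 𝓞 L, algebraMap (𝓞 K) (𝓞 L) x - h ^ 2 ∈ q ^ (e * (2 * m) + 1) := by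
  set p := q.comap (algebraMap (𝓞 K) (𝓞 L)) with hpdef
  have hp : p.IsPrime := Ideal.IsPrime.comap _
  have hp0 : p ≠ ⊥ := by
    intro h
    rw [h, Ideal.absNorm_bot] at hodd
    exact absurd hodd (by decide)
  have hlt : ¬ p ≤ p ^ 2 := by
    intro h
    have h1 : p ^ 2 < p ^ 1 := Ideal.pow_right_strictAnti p hp0 hp.ne_top (by norm_num)
    rw [pow_one] at h1
    exact absurd h (not_le_of_gt h1)
  obtain ⟨π, hπ, hπ2⟩ := SetLike.not_le_iff_exists.1 hlt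
  obtain ⟨s, t, hs, ht, hst⟩ := exists_quot hp hp0 hπ hπ2 hx
  have hmax : p.IsMaximal := hp.isMaximal hp0
  obtain ⟨s', hs'⟩ : ∃ s' : 𝓞 K, 1 - s * s' ∈ p := by
    obtain ⟨y, z, hz, hyz⟩ := hmax.exists_inv hs
    refine ⟨y, ?_⟩
    have : 1 - s * y = z := by
      rw [← hyz]
      ring
    rw [this]
    exact hz
  have hs'p : s' ∉ p := by
    intro h
    apply hp.ne_top
    rw [Ideal.eq_top_iff_one]
    have h1 : 1 - s * s' + s * s' ∈ p := p.add_mem hs' (p.mul_mem_left s h)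
    simpa using h1
  have hts : t * s' ∉ p := fun h => (hp.mem_or_mem h).elim ht hs'p
  obtain ⟨γ, hγ⟩ := hsq _ hts
  refine ⟨algebraMap (𝓞 K) (𝓞 L) π ^ m * γ, ?_⟩
  have hid : algebraMap (𝓞 K) (𝓞 L) x - (algebraMap (𝓞 K) (𝓞 L) π ^ m * γ) ^ 2 =
      algebraMap (𝓞 K) (𝓞 L) x * algebraMap (𝓞 K) (𝓞 L) (1 - s * s') +
        algebraMap (𝓞 K) (𝓞 L) (π ^ (2 * m)) * (algebraMap (𝓞 K) (𝓞 L) (t * s') - γ ^ 2) := by
    have h1 := congrArg (algebraMap (𝓞 K) (𝓞 L)) hst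
    simp only [map_mul, map_pow, map_sub, map_one] at h1 ⊢
    linear_combination algebraMap (𝓞 K) (𝓞 L) s' * h1
  rw [hid, pow_succ]
  refine Ideal.add_mem _ (Ideal.mul_mem_mul (he x _ hx.1) ?_) (Ideal.mul_mem_mul ?_ hγ)
  · exact Ideal.mem_comap.1 hs'
  · exact he _ _ (Ideal.pow_mem_pow hπ _)

end Pool.Agent.Helper38.CB
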