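import Pool.Agent.Helper38.CB.Brun
import Mathlib.Analysis.SpecificLimits.Basic

/-!
# Project CB, sieve: counting and the fundamental lemma (BH)

`A` is a finite set, `bad n` the set of the events at the point `n`.
-/

set_option autoImplicit false

namespace Pool.Agent.Helper38.CB

open Finset

variable {ι : Type*} [DecidableEq ι] {α : Type*}

/-- indicator weights -/
noncomputable def ind (B : Finset ι) : ι → ℝ := fun p => if p ∈ B then 1 else 0

theorem prod_ind (B d : Finset ι) : ∏ p ∈ d, ind B p = if d ⊆ B then (1 : ℝ) else 0 := by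
  unfold ind
  split_ifs with h
  · exact prod_eq_one fun p hp => if_pos (h hp)
  · obtain ⟨p, hp, hpB⟩ := not_subset.1 h
    exact prod_eq_zero hp (if_neg hpB)

theorem prod_vv_ind (P : ℕ → Finset ι) (t : ℕ) (B : Finset ι) :
    ∏ j ∈ range t, vv (ind B) (P j) = if Disjoint B (PP P t) then (1 : ℝ) else 0 := by
  split_ifs with h
  · refine prod_eq_one fun j hj => ?_
    unfold vv
    refine prod_eq_one fun p hp => ?_
    have : p ∉ B := fun hB => (disjoint_left.1 h) hB (mem_biUnion.2 ⟨j, hj, hp⟩)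
    unfold ind
    rw [if_neg this, sub_zero]
  · obtain ⟨p, hp, hpP⟩ := not_disjoint_iff.1 h
    obtain ⟨j, hj, hpj⟩ := mem_biUnion.1 hpP
    refine prod_eq_zero hj (prod_eq_zero hpj ?_)
    unfold ind
    rw [if_pos hp, sub_self]

theorem ind_nonneg (B : Finset ι) (p : ι) : 0 ≤ ind B p := by
  unfold ind
  split_ifs <;> norm_num

theorem ind_le_one (B : Finset ι) (p : ι) : ind B p ≤ 1 := by
  unfold ind
  split_ifs <;> norm_num

variable {P : ℕ → Finset ι} {b : ℕ → ℕ} {t : ℕ}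

/-- **upper sieve, pointwise** -/
theorem upper_point (hP : ∀ i < t, ∀ j < t, i ≠ j → Disjoint (P i) (P j)) (hb : ∀ j, Even (b j))
    (B : Finset ι) : (if Disjoint B (PP P t) then (1 : ℝ) else 0) ≤
      ∑ d ∈ (PP P t).powerset, lamP P b t d * (if d ⊆ B then (1 : ℝ) else 0) := by
  have h := sum_lamP hP b (ind B)
  simp only [prod_ind] at h
  rw [h, ← prod_vv_ind]
  exact prod_vv_le (fun _ _ p _ => ind_nonneg B p) (fun _ _ p _ => ind_le_one B p) hb

/-- **lower sieve, pointwise** -/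
theorem lower_point (hP : ∀ i < t, ∀ j < t, i ≠ j → Disjoint (P i) (P j)) (hb : ∀ j, Even (b j))
    (B : Finset ι) : ∑ d ∈ (PP P t).powerset, lamM P b t d * (if d ⊆ B then (1 : ℝ) else 0) ≤
      if Disjoint B (PP P t) then (1 : ℝ) else 0 := by
  have h := sum_lamM hP b (ind B)
  simp only [prod_ind] at h
  rw [h, ← prod_vv_ind]
  exact lower_le_prod (fun _ _ p _ => ind_nonneg B p) (fun _ _ p _ => ind_le_one B p) hb

open Classical in
/-- sums of the coefficients over the points -/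
theorem sum_points (A : Finset α) (bad : α → Finset ι) (lam : Finset ι → ℝ) (Q : Finset ι) :
    ∑ n ∈ A, ∑ d ∈ Q.powerset, lam d * (if d ⊆ bad n then (1 : ℝ) else 0) =
      ∑ d ∈ Q.powerset, lam d * ((A.filter fun n => d ⊆ bad n).card : ℝ) := by
  rw [sum_comm]
  refine sum_congr rfl fun d _ => ?_
  rw [← mul_sum, card_filter]
  push_cast
  rfl

open Classical in
theorem card_eq_sum (A : Finset α) (bad : α → Finset ι) (Q : Finset ι) :
    ((A.filter fun n => Disjoint (bad n) Q).card : ℝ) =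
      ∑ n ∈ A, if Disjoint (bad n) Q then (1 : ℝ) else 0 := by
  rw [card_filter]
  push_cast
  rfl

open Classical in
/-- **upper bound** -/
theorem card_le (hP : ∀ i < t, ∀ j < t, i ≠ j → Disjoint (P i) (P j)) (hb : ∀ j, Even (b j))
    (A : Finset α) (bad : α → Finset ι) :
    ((A.filter fun n => Disjoint (bad n) (PP P t)).card : ℝ) ≤
      ∑ d ∈ (PP P t).powerset, lamP P b t d * ((A.filter fun n => d ⊆ bad n).card : ℝ) := by
  rw [card_eq_sum, ← sum_points]
  exact sum_le_sum fun n _ => upper_point hP hb (bad n)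

open Classical in
/-- **lower bound** -/
theorem le_card (hP : ∀ i < t, ∀ j < t, i ≠ j → Disjoint (P i) (P j)) (hb : ∀ j, Even (b j))
    (A : Finset α) (bad : α → Finset ι) :
    ∑ d ∈ (PP P t).powerset, lamM P b t d * ((A.filter fun n => d ⊆ bad n).card : ℝ) ≤
      ((A.filter fun n => Disjoint (bad n) (PP P t)).card : ℝ) := by
  rw [card_eq_sum, ← sum_points]
  exact sum_le_sum fun n _ => lower_point hP hb (bad n)

/-- `∑_(d ⊆ Q) g(d) ≤ exp (∑ g)` -/
theorem sum_prod_le (Q : Finset ι) (g : ι → ℝ) (h0 : ∀ p ∈ Q, 0 ≤ g p) :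
    ∑ d ∈ Q.powerset, ∏ p ∈ d, g p ≤ Real.exp (∑ p ∈ Q, g p) := by
  rw [← prod_one_add, Real.exp_sum]
  refine prod_le_prod (fun p hp => by linarith [h0 p hp]) (fun p hp => ?_)
  have := Real.add_one_le_exp (g p)
  linarith

/-- `∏ (1 - g) ≥ 1 - ∑ g` -/
theorem one_sub_le_vv (Q : Finset ι) (g : ι → ℝ) (h0 : ∀ p ∈ Q, 0 ≤ g p) (h1 : ∀ p ∈ Q, g p ≤ 1) :
    1 - ∑ p ∈ Q, g p ≤ vv g Q := by
  induction Q using Finset.induction_on with
  | empty => simp [vv]
  | insert a s ha ih =>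
    have ih' := ih (fun p hp => h0 p (mem_insert_of_mem hp)) (fun p hp => h1 p (mem_insert_of_mem hp))
    have hv := vv_mem (fun p hp => h0 p (mem_insert_of_mem hp))
      (fun p hp => h1 p (mem_insert_of_mem (s := s) (b := a) hp))
    have ha0 := h0 a (mem_insert_self _ _)
    have h2 : vv g (insert a s) = (1 - g a) * vv g s := by
      unfold vv
      rw [prod_insert ha]
    rw [h2, sum_insert ha]
    nlinarith

/-- the product over all ranks -/
theorem prod_vv_eq (hP : ∀ i < t, ∀ j < t, i ≠ j → Disjoint (P i) (P j)) (g : ι → ℝ) :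
    ∏ j ∈ range t, vv g (P j) = vv g (PP P t) := by
  unfold vv PP
  rw [prod_biUnion]
  intro i hi j hj hij
  exact hP i (by simpa using hi) j (by simpa using hj) hij

theorem sum_PP (hP : ∀ i < t, ∀ j < t, i ≠ j → Disjoint (P i) (P j)) (g : ι → ℝ) :
    ∑ p ∈ PP P t, g p = ∑ j ∈ range t, ∑ p ∈ P j, g p := by
  unfold PP
  rw [sum_biUnion]
  intro i hi j hj hij
  exact hP i (by simpa using hi) j (by simpa using hj) hij

/-! ## the fundamental lemma -/

/-- the truncations -/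
def bb (j : ℕ) : ℕ := 2 * j + 2

theorem bb_even (j : ℕ) : Even (bb j) := ⟨j + 1, by unfold bb; ring⟩

section main

variable {g : ι → ℝ} {κ : ℝ}

theorem rank_bound (hκ : κ ≤ 1 / 16) {Q : Finset ι} (h0 : ∀ p ∈ Q, 0 ≤ g p)
    (h1 : ∑ p ∈ Q, g p ≤ κ) (j : ℕ) :
    el g (bb j + 1) Q ≤ (κ ^ (2 * j + 3) / 5) * vv g Q := by
  have hs0 : 0 ≤ ∑ p ∈ Q, g p := sum_nonneg h0
  have hκ0 : 0 ≤ κ := hs0.trans h1
  have hg1 : ∀ p ∈ Q, g p ≤ 1 := fun p hp => by
    have := single_le_sum h0 hp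
    linarith
  have e1 := el_le Q h0 (bb j + 1)
  have e2 := one_sub_le_vv Q g h0 hg1
  have e3 : (15 / 16 : ℝ) ≤ vv g Q := by linarith
  have e4 : (∑ p ∈ Q, g p) ^ (bb j + 1) / ((bb j + 1).factorial : ℝ) ≤ κ ^ (2 * j + 3) / 6 := by
    have h6 : (6 : ℝ) ≤ ((bb j + 1).factorial : ℝ) := by
      have h7 : Nat.factorial 3 ≤ (bb j + 1).factorial := Nat.factorial_le (by unfold bb; omega)
      exact_mod_cast h7
    refine div_le_div₀ (by positivity) ?_ (by norm_num) h6
    exact pow_le_pow_left₀ hs0 h1 _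
  have e5 : 0 ≤ κ ^ (2 * j + 3) := by positivity
  nlinarith [mul_le_mul_of_nonneg_left e3 e5]

theorem sum_eta_le (hκ0 : 0 ≤ κ) (hκ : κ ≤ 1 / 16) (t : ℕ) :
    ∑ j ∈ range t, κ ^ (2 * j + 3) / 5 ≤ κ ^ 3 / 4 := by
  have h : ∑ j ∈ range t, κ ^ (2 * j + 3) / 5 ≤ κ ^ 3 / 4 - κ ^ (2 * t + 3) / 4 := by
    induction t with
    | zero => simp
    | succ t ih =>
      rw [sum_range_succ]
      have e1 : κ ^ (2 * (t + 1) + 3) = κ ^ 2 * κ ^ (2 * t + 3) := by ring
      rw [e1]
      have e2 : 0 ≤ κ ^ (2 * t + 3) := by positivity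
      have e3 : κ ^ 2 ≤ 1 / 5 := by nlinarith
      nlinarith [mul_le_mul_of_nonneg_right e3 e2]
  have : 0 ≤ κ ^ (2 * t + 3) := by positivity
  linarith

open Classical in
/-- **the fundamental lemma (BH)**: ranks `P j` with `∑_(P j) g ≤ κ ≤ 1 / 16`; if the relative
error of `#A_d` is at most `η` for all `d` with at most `2 j + 3` elements in the rank `j`, then the
number of points without any event is `Y V (1 ± (exp (3 κ t) η + κ ^ 3))`. -/
theorem fundamental (hP : ∀ i < t, ∀ j < t, i ≠ j → Disjoint (P i) (P j)) (hκ : κ ≤ 1 / 16)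
    (hκ0 : 0 ≤ κ) (h0 : ∀ j < t, ∀ p ∈ P j, 0 ≤ g p) (h1 : ∀ j < t, ∑ p ∈ P j, g p ≤ κ)
    (A : Finset α) (bad : α → Finset ι) {Y η : ℝ} (hY : 0 ≤ Y) (hη : 0 ≤ η)
    (hA : ∀ d ⊆ PP P t, (∀ j < t, (d ∩ P j).card ≤ 2 * j + 3) →
      |((A.filter fun n => d ⊆ bad n).card : ℝ) - Y * ∏ p ∈ d, g p| ≤ η * (Y * ∏ p ∈ d, g p)) :
    |((A.filter fun n => Disjoint (bad n) (PP P t)).card : ℝ) - Y * vv g (PP P t)| ≤
      (Real.exp (3 * κ * t) * η + κ ^ 3) * (Y * vv g (PP P t)) := by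
  have hg1 : ∀ j < t, ∀ p ∈ P j, g p ≤ 1 := fun j hj p hp => by
    have := single_le_sum (h0 j hj) hp
    have := h1 j hj
    linarith
  set V := vv g (PP P t) with hV
  have hVe : ∏ j ∈ range t, vv g (P j) = V := prod_vv_eq hP g
  have hVlow : Real.exp (-(2 * κ * t)) ≤ V := by
    rw [← hVe]
    have e1 : Real.exp (-(2 * κ * t)) = ∏ j ∈ range t, Real.exp (-(2 * κ)) := by
      rw [prod_const, card_range, ← Real.exp_nat_mul]
      congr 1
      ring
    rw [e1]
    refine prod_le_prod (fun _ _ => (Real.exp_pos _).le) (fun j hj => ?_)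
    rw [mem_range] at hj
    have e2 := one_sub_le_vv (P j) g (h0 j hj) (hg1 j hj)
    have e3 := h1 j hj
    have e4 : Real.exp (-(2 * κ)) ≤ 1 - κ := by
      have e5 := Real.add_one_le_exp (2 * κ)
      have e6 : Real.exp (-(2 * κ)) * Real.exp (2 * κ) = 1 := by
        rw [← Real.exp_add]
        simp
      have e7 : 0 < Real.exp (-(2 * κ)) := Real.exp_pos _
      have e8 : Real.exp (-(2 * κ)) * (2 * κ + 1) ≤ 1 :=
        (mul_le_mul_of_nonneg_left e5 e7.le).trans e6.le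
      have e9 : 1 ≤ (1 - κ) * (2 * κ + 1) := by nlinarith
      have e10 : Real.exp (-(2 * κ)) * (2 * κ + 1) ≤ (1 - κ) * (2 * κ + 1) := e8.trans e9
      exact le_of_mul_le_mul_right e10 (by linarith)
    linarith
  have hV0 : 0 < V := lt_of_lt_of_le (Real.exp_pos _) hVlow
  have hgd : ∀ d ∈ (PP P t).powerset, 0 ≤ ∏ p ∈ d, g p := by
    intro d hd
    refine prod_nonneg fun p hp => ?_
    obtain ⟨j, hj, hpj⟩ := mem_biUnion.1 (mem_powerset.1 hd hp)
    exact h0 j (mem_range.1 hj) p hpj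
  -- the error term
  have herr : ∀ lam : Finset ι → ℝ, (∀ d, |lam d| ≤ 1) → (∀ d, ¬ Lev P bb t d → lam d = 0) →
      |∑ d ∈ (PP P t).powerset, lam d * ((A.filter fun n => d ⊆ bad n).card : ℝ) -
        Y * ∑ d ∈ (PP P t).powerset, lam d * ∏ p ∈ d, g p| ≤
        Real.exp (3 * κ * t) * η * (Y * V) := by
    intro lam hl hl0
    have e1 : ∑ d ∈ (PP P t).powerset, lam d * ((A.filter fun n => d ⊆ bad n).card : ℝ) -
        Y * ∑ d ∈ (PP P t).powerset, lam d * ∏ p ∈ d, g p =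
        ∑ d ∈ (PP P t).powerset, lam d *
          (((A.filter fun n => d ⊆ bad n).card : ℝ) - Y * ∏ p ∈ d, g p) := by
      rw [mul_sum, ← sum_sub_distrib]
      exact sum_congr rfl fun d _ => by ring
    rw [e1]
    have e2 : |∑ d ∈ (PP P t).powerset, lam d *
          (((A.filter fun n => d ⊆ bad n).card : ℝ) - Y * ∏ p ∈ d, g p)| ≤
        ∑ d ∈ (PP P t).powerset, η * (Y * ∏ p ∈ d, g p) := by
      refine (abs_sum_le_sum_abs _ _).trans (sum_le_sum fun d hd => ?_)
      rw [abs_mul]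
      have hnn : 0 ≤ η * (Y * ∏ p ∈ d, g p) := mul_nonneg hη (mul_nonneg hY (hgd d hd))
      by_cases hL : Lev P bb t d
      · have e3 := hA d (mem_powerset.1 hd) (fun j hj => hL j hj)
        calc |lam d| * _ ≤ 1 * (η * (Y * ∏ p ∈ d, g p)) :=
              mul_le_mul (hl d) e3 (abs_nonneg _) zero_le_one
          _ = _ := one_mul _
      · rw [hl0 d hL, abs_zero, zero_mul]
        exact hnn
    refine e2.trans ?_
    rw [← mul_sum, ← mul_sum]
    have e4 := sum_prod_le (PP P t) g (fun p hp => by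
      obtain ⟨j, hj, hpj⟩ := mem_biUnion.1 hp
      exact h0 j (mem_range.1 hj) p hpj)
    have e5 : ∑ p ∈ PP P t, g p ≤ κ * t := by
      rw [sum_PP hP]
      refine (sum_le_sum fun j hj => h1 j (mem_range.1 hj)).trans ?_
      rw [sum_const, card_range, nsmul_eq_mul, mul_comm]
    have e6 : ∑ d ∈ (PP P t).powerset, ∏ p ∈ d, g p ≤ Real.exp (3 * κ * t) * V := by
      calc _ ≤ Real.exp (κ * t) := e4.trans (Real.exp_le_exp.2 e5)
        _ = Real.exp (3 * κ * t) * Real.exp (-(2 * κ * t)) := by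
            rw [← Real.exp_add]
            congr 1
            ring
        _ ≤ _ := mul_le_mul_of_nonneg_left hVlow (Real.exp_pos _).le
    calc η * (Y * ∑ d ∈ (PP P t).powerset, ∏ p ∈ d, g p) ≤
          η * (Y * (Real.exp (3 * κ * t) * V)) :=
        mul_le_mul_of_nonneg_left (mul_le_mul_of_nonneg_left e6 hY) hη
      _ = _ := by ring
  have hb : ∀ j, Even (bb j) := bb_even
  have hrank : ∀ j < t, el g (bb j + 1) (P j) ≤ (κ ^ (2 * j + 3) / 5) * vv g (P j) :=
    fun j hj => rank_bound hκ (h0 j hj) (h1 j hj) j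
  have hsum := sum_eta_le hκ0 hκ t
  have hk3 : κ ^ 3 ≤ 1 / 4096 := by
    calc κ ^ 3 ≤ (1 / 16) ^ 3 := pow_le_pow_left₀ hκ0 hκ 3
      _ = _ := by norm_num
  have hk30 : 0 ≤ κ ^ 3 := by positivity
  have hYV : 0 ≤ Y * V := mul_nonneg hY hV0.le
  rw [abs_le]
  constructor
  · -- lower bound
    have a1 := le_card hP hb A bad
    have a2 := (abs_le.1 (herr (lamM P bb t) (abs_lamM_le P bb t) (fun d => lamM_eq_zero))).1
    have a3 := lower_main (g := g) h0 hg1 hb (η := fun j => κ ^ (2 * j + 3) / 5) hrank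
      (by linarith) (fun j _ => by positivity)
    rw [← sum_lamM hP, hVe] at a3
    have a4 := mul_le_mul_of_nonneg_left a3 hY
    have a5 : Y * V * (1 - κ ^ 3 / 4) ≤ Y * (V * (1 - ∑ j ∈ range t, κ ^ (2 * j + 3) / 5)) := by
      rw [← mul_assoc]
      exact mul_le_mul_of_nonneg_left (by linarith) hYV
    have a6 : 0 ≤ κ ^ 3 * (Y * V) := mul_nonneg hk30 hYV
    linarith
  · -- upper bound
    have a1 := card_le hP hb A bad
    have a2 := (abs_le.1 (herr (lamP P bb t) (abs_lamP_le P bb t) (fun d => lamP_eq_zero))).2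
    have a3 := upper_main (g := g) h0 hg1 hb (η := fun j => κ ^ (2 * j + 3) / 5) hrank
    rw [← sum_lamP hP, hVe] at a3
    have a4 := mul_le_mul_of_nonneg_left a3 hY
    have a5 : Real.exp (∑ j ∈ range t, κ ^ (2 * j + 3) / 5) ≤ 1 + κ ^ 3 := by
      refine (Real.exp_le_exp.2 hsum).trans ?_
      have b1 : |κ ^ 3 / 4| ≤ 1 := by
        rw [abs_of_nonneg (by positivity)]
        linarith
      have b2 := Real.abs_exp_sub_one_le b1
      rw [abs_of_nonneg (by positivity : (0 : ℝ) ≤ κ ^ 3 / 4)] at b2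
      have b3 := (abs_le.1 b2).2
      linarith
    have a6 : Y * (V * Real.exp (∑ j ∈ range t, κ ^ (2 * j + 3) / 5)) ≤ Y * V * (1 + κ ^ 3) := by
      rw [← mul_assoc]
      exact mul_le_mul_of_nonneg_left a5 hYV
    linarith

end main

end Pool.Agent.Helper38.CB
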