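import Pool.Agent.Helper38.CB.Expand
import Mathlib.Analysis.SpecialFunctions.Exp
import Mathlib.Analysis.SpecialFunctions.Log.Basic

/-!
# Project CB, sieve: the weights of Brun and Hooley and the fundamental lemma

`P j` (`j < t`) are disjoint finite sets (the ranks), `b j` is even.  `lamP`, `lamM` are the
coefficients of the upper and of the lower sieve.
-/

set_option autoImplicit false

namespace Pool.Agent.Helper38.CB

open Finset

variable {ι : Type*} [DecidableEq ι]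

/-- truncated signs -/
noncomputable def Fp (b : ℕ → ℕ) : ℕ → ℕ → ℝ := fun j c => if c ≤ b j then (-1 : ℝ) ^ c else 0

/-- truncated signs, in the rank `l` the sets with `b l + 1` elements -/
noncomputable def Fm (b : ℕ → ℕ) (l : ℕ) : ℕ → ℕ → ℝ :=
  fun j c => if j = l then (if c = b l + 1 then (1 : ℝ) else 0) else Fp b j c

/-- upper sieve coefficient -/
noncomputable def lamP (P : ℕ → Finset ι) (b : ℕ → ℕ) (t : ℕ) (d : Finset ι) : ℝ :=
  cf (Fp b) P t d

/-- lower sieve coefficient -/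
noncomputable def lamM (P : ℕ → Finset ι) (b : ℕ → ℕ) (t : ℕ) (d : Finset ι) : ℝ :=
  cf (Fp b) P t d - ∑ l ∈ range t, cf (Fm b l) P t d

/-- the union of the ranks -/
def PP (P : ℕ → Finset ι) (t : ℕ) : Finset ι := (range t).biUnion P

/-- the level -/
def Lev (P : ℕ → Finset ι) (b : ℕ → ℕ) (t : ℕ) (d : Finset ι) : Prop :=
  ∀ j < t, (d ∩ P j).card ≤ b j + 1

theorem abs_Fp_le (b : ℕ → ℕ) (j c : ℕ) : |Fp b j c| ≤ 1 := by
  unfold Fp
  split_ifs <;> simp

theorem abs_cf_le {F : ℕ → ℕ → ℝ} (hF : ∀ j c, |F j c| ≤ 1) (P : ℕ → Finset ι) (t : ℕ)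
    (d : Finset ι) : |cf F P t d| ≤ 1 := by
  unfold cf
  rw [abs_prod]
  exact prod_le_one (fun _ _ => abs_nonneg _) (fun j _ => hF j _)

theorem cf_eq_zero {F : ℕ → ℕ → ℝ} {P : ℕ → Finset ι} {t : ℕ} {d : Finset ι} {j : ℕ} (hj : j < t)
    (h : F j (d ∩ P j).card = 0) : cf F P t d = 0 :=
  prod_eq_zero (mem_range.2 hj) h

theorem abs_lamP_le (P : ℕ → Finset ι) (b : ℕ → ℕ) (t : ℕ) (d : Finset ι) : |lamP P b t d| ≤ 1 :=
  abs_cf_le (abs_Fp_le b) P t d

theorem abs_Fm_le (b : ℕ → ℕ) (l j c : ℕ) : |Fm b l j c| ≤ 1 := by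
  unfold Fm
  split_ifs
  · simp
  · simp
  · exact abs_Fp_le b j c

theorem lamP_eq_zero {P : ℕ → Finset ι} {b : ℕ → ℕ} {t : ℕ} {d : Finset ι} (h : ¬ Lev P b t d) :
    lamP P b t d = 0 := by
  unfold Lev at h
  push Not at h
  obtain ⟨j, hj, h⟩ := h
  refine cf_eq_zero hj ?_
  unfold Fp
  rw [if_neg (by omega)]

theorem lamM_eq_zero {P : ℕ → Finset ι} {b : ℕ → ℕ} {t : ℕ} {d : Finset ι} (h : ¬ Lev P b t d) :
    lamM P b t d = 0 := by
  have h0 := lamP_eq_zero h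
  unfold lamP at h0
  unfold Lev at h
  push Not at h
  obtain ⟨j, hj, h⟩ := h
  unfold lamM
  rw [h0, sum_eq_zero, sub_zero]
  intro l _
  refine cf_eq_zero hj ?_
  unfold Fm Fp
  by_cases hjl : j = l
  · rw [if_pos hjl, if_neg (by rw [← hjl]; omega)]
  · rw [if_neg hjl, if_neg (by omega)]

/-- if `cf (Fm b l)` is not zero, `l` is the only rank with `b l + 1` elements -/
theorem cf_Fm_ne {P : ℕ → Finset ι} {b : ℕ → ℕ} {t : ℕ} {d : Finset ι} {l : ℕ} (hl : l < t)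
    (h : cf (Fm b l) P t d ≠ 0) : (d ∩ P l).card = b l + 1 ∧
      ∀ j < t, j ≠ l → (d ∩ P j).card ≤ b j := by
  refine ⟨?_, fun j hj hjl => ?_⟩
  · by_contra hc
    refine h (cf_eq_zero hl ?_)
    unfold Fm
    rw [if_pos rfl, if_neg hc]
  · by_contra hc
    refine h (cf_eq_zero hj ?_)
    unfold Fm Fp
    rw [if_neg hjl, if_neg hc]

theorem abs_lamM_le (P : ℕ → Finset ι) (b : ℕ → ℕ) (t : ℕ) (d : Finset ι) : |lamM P b t d| ≤ 1 := by
  unfold lamM
  by_cases h : ∃ l ∈ range t, cf (Fm b l) P t d ≠ 0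
  · obtain ⟨l, hl, hne⟩ := h
    rw [mem_range] at hl
    obtain ⟨h1, h2⟩ := cf_Fm_ne hl hne
    have h0 : cf (Fp b) P t d = 0 := by
      refine cf_eq_zero hl ?_
      unfold Fp
      rw [if_neg (by omega)]
    rw [h0, zero_sub, abs_neg, sum_eq_single_of_mem l (mem_range.2 hl)]
    · exact abs_cf_le (abs_Fm_le b l) P t d
    · intro j hj hjl
      by_contra hc
      have := (cf_Fm_ne (mem_range.1 hj) hc).2 l hl (Ne.symm hjl)
      omega
  · push Not at h
    rw [sum_eq_zero h, sub_zero]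
    exact abs_cf_le (abs_Fp_le b) P t d

/-! ## the sums of the coefficients -/

theorem sum_lamP {P : ℕ → Finset ι} {t : ℕ}
    (hP : ∀ i < t, ∀ j < t, i ≠ j → Disjoint (P i) (P j)) (b : ℕ → ℕ) (g : ι → ℝ) :
    ∑ d ∈ (PP P t).powerset, lamP P b t d * ∏ p ∈ d, g p = ∏ j ∈ range t, tr g (b j) (P j) :=
  (expand P (Fp b) g t hP).symm

theorem sum_Fm {P : ℕ → Finset ι} {t : ℕ}
    (hP : ∀ i < t, ∀ j < t, i ≠ j → Disjoint (P i) (P j)) (b : ℕ → ℕ) (g : ι → ℝ) {l : ℕ}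
    (hl : l ∈ range t) :
    ∑ d ∈ (PP P t).powerset, cf (Fm b l) P t d * ∏ p ∈ d, g p =
      el g (b l + 1) (P l) * ∏ j ∈ (range t).erase l, tr g (b j) (P j) := by
  have h := expand P (Fm b l) g t hP
  unfold PP
  rw [← h, ← mul_prod_erase _ _ hl]
  congr 1
  · refine sum_congr rfl fun e _ => ?_
    unfold Fm
    rw [if_pos rfl]
  · refine prod_congr rfl fun j hj => ?_
    refine sum_congr rfl fun e _ => ?_
    unfold Fm Fp
    rw [if_neg (ne_of_mem_erase hj)]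

theorem sum_lamM {P : ℕ → Finset ι} {t : ℕ}
    (hP : ∀ i < t, ∀ j < t, i ≠ j → Disjoint (P i) (P j)) (b : ℕ → ℕ) (g : ι → ℝ) :
    ∑ d ∈ (PP P t).powerset, lamM P b t d * ∏ p ∈ d, g p = ∏ j ∈ range t, tr g (b j) (P j) -
      ∑ l ∈ range t, el g (b l + 1) (P l) * ∏ j ∈ (range t).erase l, tr g (b j) (P j) := by
  have h1 := sum_lamP hP b g
  unfold lamP at h1
  have h2 : ∑ d ∈ (PP P t).powerset, lamM P b t d * ∏ p ∈ d, g p =
      ∑ d ∈ (PP P t).powerset, cf (Fp b) P t d * ∏ p ∈ d, g p -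
      ∑ l ∈ range t, ∑ d ∈ (PP P t).powerset, cf (Fm b l) P t d * ∏ p ∈ d, g p := by
    rw [sum_comm, ← sum_sub_distrib]
    refine sum_congr rfl fun d _ => ?_
    unfold lamM
    rw [sub_mul, sum_mul]
  rw [h2, h1]
  congr 1
  exact sum_congr rfl fun l hl => sum_Fm hP b g hl

/-! ## inequalities -/

/-- `∏ y - ∑_l (y_l - x_l) ∏_(j ≠ l) y_j ≤ ∏ x` -/
theorem prod_lower (t : ℕ) (x y : ℕ → ℝ) (h0 : ∀ j < t, 0 ≤ x j) (h1 : ∀ j < t, x j ≤ y j) :
    ∏ j ∈ range t, y j - ∑ l ∈ range t, (y l - x l) * ∏ j ∈ (range t).erase l, y j ≤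
      ∏ j ∈ range t, x j := by
  induction t with
  | zero => simp
  | succ t ih =>
    have ih' := ih (fun j hj => h0 j (by omega)) (fun j hj => h1 j (by omega))
    have hy : ∀ j < t, 0 ≤ y j := fun j hj => (h0 j (by omega)).trans (h1 j (by omega))
    have hx' : 0 ≤ ∏ j ∈ range t, x j := prod_nonneg fun j hj => h0 j (by
      rw [mem_range] at hj; omega)
    have hxy : ∏ j ∈ range t, x j ≤ ∏ j ∈ range t, y j :=
      prod_le_prod (fun j hj => h0 j (by rw [mem_range] at hj; omega))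
        (fun j hj => h1 j (by rw [mem_range] at hj; omega))
    have e1 : (range (t + 1)).erase t = range t := by
      ext j
      simp only [mem_erase, mem_range]
      omega
    have e2 : ∀ l ∈ range t, ∏ j ∈ (range (t + 1)).erase l, y j =
        y t * ∏ j ∈ (range t).erase l, y j := by
      intro l hl
      rw [mem_range] at hl
      have : (range (t + 1)).erase l = insert t ((range t).erase l) := by
        ext j
        simp only [mem_erase, mem_range, mem_insert]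
        omega
      rw [this, prod_insert (by simp)]
    rw [prod_range_succ, prod_range_succ, sum_range_succ, e1]
    have e3 : ∑ l ∈ range t, (y l - x l) * ∏ j ∈ (range (t + 1)).erase l, y j =
        y t * ∑ l ∈ range t, (y l - x l) * ∏ j ∈ (range t).erase l, y j := by
      rw [mul_sum]
      refine sum_congr rfl fun l hl => ?_
      rw [e2 l hl]
      ring
    rw [e3]
    set Y := ∏ j ∈ range t, y j
    set X := ∏ j ∈ range t, x j
    set S := ∑ l ∈ range t, (y l - x l) * ∏ j ∈ (range t).erase l, y j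
    have a0 := h0 t (by omega)
    have a1 := h1 t (by omega)
    nlinarith [mul_le_mul_of_nonneg_left ih' (a0.trans a1), mul_nonneg (sub_nonneg.2 a1)
      (sub_nonneg.2 hxy)]

variable {P : ℕ → Finset ι} {b : ℕ → ℕ} {t : ℕ} {g : ι → ℝ}

theorem prod_vv_le (h0 : ∀ j < t, ∀ p ∈ P j, 0 ≤ g p) (h1 : ∀ j < t, ∀ p ∈ P j, g p ≤ 1)
    (hb : ∀ j, Even (b j)) :
    ∏ j ∈ range t, vv g (P j) ≤ ∏ j ∈ range t, tr g (b j) (P j) := by
  refine prod_le_prod (fun j hj => ?_) (fun j hj => ?_)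
  · rw [mem_range] at hj
    exact (vv_mem (h0 j hj) (h1 j hj)).1
  · rw [mem_range] at hj
    exact vv_le_tr (h0 j hj) (h1 j hj) (hb j)

theorem lower_le_prod (h0 : ∀ j < t, ∀ p ∈ P j, 0 ≤ g p) (h1 : ∀ j < t, ∀ p ∈ P j, g p ≤ 1)
    (hb : ∀ j, Even (b j)) : ∏ j ∈ range t, tr g (b j) (P j) -
      ∑ l ∈ range t, el g (b l + 1) (P l) * ∏ j ∈ (range t).erase l, tr g (b j) (P j) ≤
      ∏ j ∈ range t, vv g (P j) := by
  have hx : ∀ j < t, 0 ≤ vv g (P j) := fun j hj => (vv_mem (h0 j hj) (h1 j hj)).1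
  have hxy : ∀ j < t, vv g (P j) ≤ tr g (b j) (P j) := fun j hj =>
    vv_le_tr (h0 j hj) (h1 j hj) (hb j)
  refine le_trans ?_ (prod_lower t (fun j => vv g (P j)) (fun j => tr g (b j) (P j)) hx hxy)
  refine sub_le_sub_left (sum_le_sum fun l hl => ?_) _
  rw [mem_range] at hl
  refine mul_le_mul_of_nonneg_right ?_ (prod_nonneg fun j hj => ?_)
  · have := tr_le (h0 l hl) (h1 l hl) (hb l)
    linarith
  · have hj' := mem_range.1 (mem_of_mem_erase hj)
    exact (hx j hj').trans (hxy j hj')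

/-- the main term of the upper sieve -/
theorem upper_main (h0 : ∀ j < t, ∀ p ∈ P j, 0 ≤ g p) (h1 : ∀ j < t, ∀ p ∈ P j, g p ≤ 1)
    (hb : ∀ j, Even (b j)) {η : ℕ → ℝ} (hη : ∀ j < t, el g (b j + 1) (P j) ≤ η j * vv g (P j)) :
    ∏ j ∈ range t, tr g (b j) (P j) ≤
      (∏ j ∈ range t, vv g (P j)) * Real.exp (∑ j ∈ range t, η j) := by
  rw [Real.exp_sum, ← prod_mul_distrib]
  refine prod_le_prod (fun j hj => ?_) (fun j hj => ?_)
  · rw [mem_range] at hj
    exact (vv_mem (h0 j hj) (h1 j hj)).1.trans (vv_le_tr (h0 j hj) (h1 j hj) (hb j))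
  · rw [mem_range] at hj
    have e1 := tr_le (h0 j hj) (h1 j hj) (hb j)
    have e2 := (vv_mem (h0 j hj) (h1 j hj)).1
    have e3 := Real.add_one_le_exp (η j)
    nlinarith [hη j hj, mul_le_mul_of_nonneg_left e3 e2]

/-- the main term of the lower sieve -/
theorem lower_main (h0 : ∀ j < t, ∀ p ∈ P j, 0 ≤ g p) (h1 : ∀ j < t, ∀ p ∈ P j, g p ≤ 1)
    (hb : ∀ j, Even (b j)) {η : ℕ → ℝ} (hη : ∀ j < t, el g (b j + 1) (P j) ≤ η j * vv g (P j))
    (hη1 : ∑ j ∈ range t, η j ≤ 1) (hη0 : ∀ j < t, 0 ≤ η j) :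
    (∏ j ∈ range t, vv g (P j)) * (1 - ∑ j ∈ range t, η j) ≤ ∏ j ∈ range t, tr g (b j) (P j) -
      ∑ l ∈ range t, el g (b l + 1) (P l) * ∏ j ∈ (range t).erase l, tr g (b j) (P j) := by
  have hx : ∀ j < t, 0 ≤ vv g (P j) := fun j hj => (vv_mem (h0 j hj) (h1 j hj)).1
  have hxy : ∀ j < t, vv g (P j) ≤ tr g (b j) (P j) := fun j hj =>
    vv_le_tr (h0 j hj) (h1 j hj) (hb j)
  have e1 : ∑ l ∈ range t, el g (b l + 1) (P l) * ∏ j ∈ (range t).erase l, tr g (b j) (P j) ≤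
      ∑ l ∈ range t, η l * ∏ j ∈ range t, tr g (b j) (P j) := by
    refine sum_le_sum fun l hl => ?_
    rw [← mul_prod_erase _ _ hl, ← mul_assoc]
    rw [mem_range] at hl
    refine mul_le_mul_of_nonneg_right ?_ (prod_nonneg fun j hj => ?_)
    · exact (hη l hl).trans (mul_le_mul_of_nonneg_left (hxy l hl) (hη0 l hl))
    · have hj' := mem_range.1 (mem_of_mem_erase hj)
      exact (hx j hj').trans (hxy j hj')
  rw [← sum_mul] at e1
  have e2 := prod_vv_le h0 h1 hb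
  have e3 : 0 ≤ 1 - ∑ j ∈ range t, η j := by linarith
  nlinarith [mul_le_mul_of_nonneg_right e2 e3]

end Pool.Agent.Helper38.CB
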