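import Pool.Agent.Helper38.CB.Trunc

/-!
# Project CB, sieve: products over disjoint ranks as sums over sets
-/

set_option autoImplicit false

namespace Pool.Agent.Helper38.CB

open Finset

variable {ι : Type*} [DecidableEq ι]

/-- sums over the subsets of a disjoint union -/
theorem sum_powerset_union {Q R : Finset ι} (h : Disjoint Q R) (f : Finset ι → ℝ) :
    ∑ d ∈ (Q ∪ R).powerset, f d = ∑ x ∈ Q.powerset, ∑ y ∈ R.powerset, f (x ∪ y) := by
  rw [← sum_product']
  symm
  refine sum_nbij' (fun q => q.1 ∪ q.2) (fun d => (d ∩ Q, d ∩ R)) ?_ ?_ ?_ ?_ ?_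
  · rintro ⟨x, y⟩ hq
    rw [mem_product, mem_powerset, mem_powerset] at hq
    exact mem_powerset.2 (union_subset_union hq.1 hq.2)
  · intro d _
    rw [mem_product, mem_powerset, mem_powerset]
    exact ⟨inter_subset_right, inter_subset_right⟩
  · rintro ⟨x, y⟩ hq
    rw [mem_product, mem_powerset, mem_powerset] at hq
    simp only at hq ⊢
    have hxR : Disjoint x R := disjoint_of_subset_left hq.1 h
    have hyQ : Disjoint y Q := (disjoint_of_subset_right hq.2 h).symm
    rw [union_inter_distrib_right, union_inter_distrib_right, inter_eq_left.2 hq.1,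
      inter_eq_left.2 hq.2, disjoint_iff_inter_eq_empty.1 hxR, disjoint_iff_inter_eq_empty.1 hyQ,
      union_empty, empty_union]
  · intro d hd
    rw [mem_powerset] at hd
    simp only
    rw [← inter_union_distrib_left, inter_eq_left.2 hd]
  · intro q _
    rfl

/-- the coefficient of the set `d` -/
noncomputable def cf (F : ℕ → ℕ → ℝ) (P : ℕ → Finset ι) (t : ℕ) (d : Finset ι) : ℝ :=
  ∏ j ∈ range t, F j (d ∩ P j).card

theorem expand (P : ℕ → Finset ι) (F : ℕ → ℕ → ℝ) (g : ι → ℝ) (t : ℕ)
    (hP : ∀ i < t, ∀ j < t, i ≠ j → Disjoint (P i) (P j)) :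
    ∏ j ∈ range t, (∑ e ∈ (P j).powerset, F j e.card * ∏ p ∈ e, g p) =
      ∑ d ∈ ((range t).biUnion P).powerset, cf F P t d * ∏ p ∈ d, g p := by
  induction t with
  | zero => simp [cf]
  | succ t ih =>
    have hdis : Disjoint ((range t).biUnion P) (P t) := by
      rw [disjoint_biUnion_left]
      intro i hi
      rw [mem_range] at hi
      exact hP i (by omega) t (by omega) (by omega)
    have hset : (range (t + 1)).biUnion P = (range t).biUnion P ∪ P t := by
      rw [range_add_one, biUnion_insert, union_comm]
    rw [prod_range_succ, ih (fun i hi j hj => hP i (by omega) j (by omega)), hset,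
      sum_powerset_union hdis, sum_mul]
    refine sum_congr rfl fun x hx => ?_
    rw [mul_sum]
    refine sum_congr rfl fun y hy => ?_
    rw [mem_powerset] at hx hy
    have hxy : Disjoint x y := disjoint_of_subset_left hx (disjoint_of_subset_right hy hdis)
    have h1 : cf F P (t + 1) (x ∪ y) = cf F P t x * F t y.card := by
      unfold cf
      rw [prod_range_succ]
      congr 1
      · refine prod_congr rfl fun j hj => ?_
        rw [mem_range] at hj
        have h2 : Disjoint y (P j) :=
          disjoint_of_subset_left hy (hP t (by omega) j (by omega) (by omega))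
        rw [union_inter_distrib_right, disjoint_iff_inter_eq_empty.1 h2, union_empty]
      · have h2 : Disjoint x (P t) := disjoint_of_subset_left hx hdis
        rw [union_inter_distrib_right, disjoint_iff_inter_eq_empty.1 h2, empty_union,
          inter_eq_left.2 hy]
    rw [h1, prod_union hxy]
    ring

end Pool.Agent.Helper38.CB
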