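import Pool.Agent.Helper38.CB.SqVal
import Pool.Agent.Helper10.CB.SqRes

/-! Project CB, A7b: the exact statement. -/

set_option autoImplicit false

namespace Pool.Agent.Helper38.CB

open NumberField Pool.Agent.Helper16.CB

/-- A7b -/
theorem sq_val {K L : Type*} [Field K] [NumberField K] [Field L] [NumberField L] [Algebra K L]
    {J : ℕ} {ζ : L} (hζ : IsPrimitiveRoot ζ (2 ^ J)) {q : Ideal (𝓞 L)} (hq : q.IsPrime)
    (_hq0 : q ≠ ⊥)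
    (hodd : Odd (Ideal.absNorm (q.comap (algebraMap (𝓞 K) (𝓞 L)))))
    (hJ : ¬ Ideal.absNorm (q.comap (algebraMap (𝓞 K) (𝓞 L))) ≡ 1 [MOD 2 ^ J])
    {x : 𝓞 K} {m e : ℕ} (hx : Val (q.comap (algebraMap (𝓞 K) (𝓞 L))) x (2 * m))
    (he : ∀ (x : 𝓞 K) (m : ℕ), x ∈ (q.comap (algebraMap (𝓞 K) (𝓞 L))) ^ m →
        algebraMap (𝓞 K) (𝓞 L) x ∈ q ^ (e * m)) (_he1 : 1 ≤ e) :
    ∃ h : 𝓞 L, algebraMap (𝓞 K) (𝓞 L) x - h ^ 2 ∈ q ^ (e * (2 * m) + 1) := by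
  refine sq_val_of hq hodd (fun y hy => ?_) hx he
  have hp0 : q.comap (algebraMap (𝓞 K) (𝓞 L)) ≠ ⊥ := by
    intro h
    rw [h, Ideal.absNorm_bot] at hodd
    exact absurd hodd (by decide)
  exact Pool.Agent.Helper10.CB.sq_res hζ (Ideal.IsPrime.comap _) hp0 hodd hJ hq rfl hy

end Pool.Agent.Helper38.CB
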