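import Mathlib.Algebra.BigOperators.Field
import Mathlib.Algebra.Order.BigOperators.Group.Finset
import Mathlib.Algebra.Order.BigOperators.Ring.Finset
import Mathlib.Data.Real.Basic
import Mathlib.Data.Nat.Factorial.Basic
import Mathlib.Tactic

/-!
# Project CB, sieve: truncated inclusion-exclusion with weights

`tr g b s = ∑_{e ⊆ s, |e| ≤ b} (-1)^|e| ∏_{p ∈ e} g p` for weights `0 ≤ g ≤ 1`.
-/

set_option autoImplicit false

namespace Pool.Agent.Helper38.CB

open Finset

variable {ι : Type*} [DecidableEq ι]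

/-- truncated inclusion-exclusion -/
noncomputable def tr (g : ι → ℝ) (b : ℕ) (s : Finset ι) : ℝ :=
  ∑ e ∈ s.powerset, (if e.card ≤ b then (-1 : ℝ) ^ e.card else 0) * ∏ p ∈ e, g p

/-- elementary symmetric function -/
noncomputable def el (g : ι → ℝ) (r : ℕ) (s : Finset ι) : ℝ :=
  ∑ e ∈ s.powerset, (if e.card = r then (1 : ℝ) else 0) * ∏ p ∈ e, g p

/-- the full product -/
noncomputable def vv (g : ι → ℝ) (s : Finset ι) : ℝ := ∏ p ∈ s, (1 - g p)

theorem tr_empty (g : ι → ℝ) (b : ℕ) : tr g b ∅ = 1 := by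
  simp [tr]

theorem tr_insert (g : ι → ℝ) (b : ℕ) {a : ι} {s : Finset ι} (ha : a ∉ s) :
    tr g (b + 1) (insert a s) = tr g (b + 1) s - g a * tr g b s := by
  unfold tr
  rw [sum_powerset_insert ha, sub_eq_add_neg, mul_sum, ← sum_neg_distrib]
  congr 1
  refine sum_congr rfl fun e he => ?_
  have hae : a ∉ e := fun h => ha (mem_powerset.1 he h)
  rw [card_insert_of_notMem hae, prod_insert hae]
  by_cases hc : e.card ≤ b
  · rw [if_pos (by omega), if_pos hc, pow_succ]
    ring
  · rw [if_neg (by omega), if_neg hc]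
    ring

theorem tr_zero (g : ι → ℝ) (s : Finset ι) : tr g 0 s = 1 := by
  unfold tr
  rw [sum_eq_single ∅]
  · simp
  · intro e _ he
    rw [if_neg]
    · ring
    · intro h
      exact he (card_eq_zero.1 (by omega))
  · intro h
    exact absurd (empty_mem_powerset s) h

theorem vv_mem {g : ι → ℝ} {s : Finset ι} (h0 : ∀ p ∈ s, 0 ≤ g p) (h1 : ∀ p ∈ s, g p ≤ 1) :
    0 ≤ vv g s ∧ vv g s ≤ 1 :=
  ⟨prod_nonneg fun p hp => by linarith [h1 p hp],
    prod_le_one (fun p hp => by linarith [h1 p hp]) (fun p hp => by linarith [h0 p hp])⟩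

/-- Bonferroni with weights -/
theorem tr_vv {g : ι → ℝ} (s : Finset ι) (h0 : ∀ p ∈ s, 0 ≤ g p) (h1 : ∀ p ∈ s, g p ≤ 1) (b : ℕ) :
    (Even b → vv g s ≤ tr g b s) ∧ (Odd b → tr g b s ≤ vv g s) := by
  induction s using Finset.induction_on generalizing b with
  | empty => simp [tr_empty, vv]
  | insert a s ha ih =>
    have h0' : ∀ p ∈ s, 0 ≤ g p := fun p hp => h0 p (mem_insert_of_mem hp)
    have h1' : ∀ p ∈ s, g p ≤ 1 := fun p hp => h1 p (mem_insert_of_mem hp)
    have hga := h0 a (mem_insert_self _ _)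
    have hv : vv g (insert a s) = vv g s - g a * vv g s := by
      unfold vv
      rw [prod_insert ha]
      ring
    cases b with
    | zero =>
      refine ⟨fun _ => ?_, fun h => absurd h (by decide)⟩
      rw [tr_zero]
      exact (vv_mem h0 h1).2
    | succ b =>
      rw [tr_insert g b ha, hv]
      refine ⟨fun h => ?_, fun h => ?_⟩
      · have e1 := (ih h0' h1' (b + 1)).1 h
        have e2 := (ih h0' h1' b).2 (by
          rcases Nat.even_or_odd b with hb | hb
          · exact absurd h (by simpa [Nat.even_add_one] using hb)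
          · exact hb)
        nlinarith
      · have e1 := (ih h0' h1' (b + 1)).2 h
        have e2 := (ih h0' h1' b).1 (by
          rcases Nat.even_or_odd b with hb | hb
          · exact hb
          · exact absurd h (by simpa [Nat.odd_add_one] using hb))
        nlinarith

theorem tr_succ (g : ι → ℝ) (b : ℕ) (s : Finset ι) :
    tr g (b + 1) s = tr g b s + (-1) ^ (b + 1) * el g (b + 1) s := by
  unfold tr el
  rw [mul_sum, ← sum_add_distrib]
  refine sum_congr rfl fun e _ => ?_
  rcases lt_trichotomy e.card (b + 1) with h | h | h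
  · rw [if_pos (by omega), if_pos (by omega), if_neg (by omega)]
    ring
  · rw [if_pos (by omega), if_neg (by omega), if_pos h, h]
    ring
  · rw [if_neg (by omega), if_neg (by omega), if_neg (by omega)]
    ring

theorem vv_le_tr {g : ι → ℝ} {s : Finset ι} (h0 : ∀ p ∈ s, 0 ≤ g p) (h1 : ∀ p ∈ s, g p ≤ 1)
    {b : ℕ} (hb : Even b) : vv g s ≤ tr g b s := (tr_vv s h0 h1 b).1 hb

theorem tr_le {g : ι → ℝ} {s : Finset ι} (h0 : ∀ p ∈ s, 0 ≤ g p) (h1 : ∀ p ∈ s, g p ≤ 1)
    {b : ℕ} (hb : Even b) : tr g b s ≤ vv g s + el g (b + 1) s := by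
  have h := (tr_vv s h0 h1 (b + 1)).2 hb.add_one
  rw [tr_succ, hb.add_one.neg_one_pow] at h
  linarith

theorem el_nonneg {g : ι → ℝ} {s : Finset ι} (h0 : ∀ p ∈ s, 0 ≤ g p) (r : ℕ) : 0 ≤ el g r s := by
  refine sum_nonneg fun e he => mul_nonneg (by split_ifs <;> norm_num)
    (prod_nonneg fun p hp => h0 p (mem_powerset.1 he hp))

theorem el_insert (g : ι → ℝ) (r : ℕ) {a : ι} {s : Finset ι} (ha : a ∉ s) :
    el g (r + 1) (insert a s) = el g (r + 1) s + g a * el g r s := by
  unfold el
  rw [sum_powerset_insert ha, mul_sum]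
  congr 1
  refine sum_congr rfl fun e he => ?_
  have hae : a ∉ e := fun h => ha (mem_powerset.1 he h)
  rw [card_insert_of_notMem hae, prod_insert hae]
  by_cases hc : e.card = r
  · rw [if_pos (by omega), if_pos hc]
    ring
  · rw [if_neg (by omega), if_neg hc]
    ring

theorem el_zero (g : ι → ℝ) (s : Finset ι) : el g 0 s = 1 := by
  unfold el
  rw [sum_eq_single ∅]
  · simp
  · intro e _ he
    rw [if_neg]
    · ring
    · intro h
      exact he (card_eq_zero.1 h)
  · intro h
    exact absurd (empty_mem_powerset s) h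

/-- `e_r ≤ L ^ r / r!` -/
theorem el_le {g : ι → ℝ} (s : Finset ι) (h0 : ∀ p ∈ s, 0 ≤ g p) (r : ℕ) :
    el g r s ≤ (∑ p ∈ s, g p) ^ r / (r.factorial : ℝ) := by
  induction s using Finset.induction_on generalizing r with
  | empty =>
    cases r with
    | zero => simp [el_zero]
    | succ r =>
      have : el g (r + 1) ∅ = 0 := by simp [el]
      rw [this]
      positivity
  | insert a s ha ih =>
    have h0' : ∀ p ∈ s, 0 ≤ g p := fun p hp => h0 p (mem_insert_of_mem hp)
    have hga := h0 a (mem_insert_self _ _)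
    cases r with
    | zero => simp [el_zero]
    | succ r =>
      rw [el_insert g r ha, sum_insert ha]
      have e1 := ih h0' (r + 1)
      have e2 := mul_le_mul_of_nonneg_left (ih h0' r) hga
      set L := ∑ p ∈ s, g p with hL
      have hL0 : 0 ≤ L := sum_nonneg h0'
      have hf : (0 : ℝ) < (r.factorial : ℝ) := by positivity
      have e3 : L ^ (r + 1) + ((r : ℝ) + 1) * (g a * L ^ r) ≤ (g a + L) ^ (r + 1) := by
        clear e1 e2 ih
        induction r with
        | zero => simp; linarith
        | succ n ihn =>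
          have hn := ihn (by positivity)
          have h2 : (g a + L) ^ (n + 1 + 1) = (g a + L) * (g a + L) ^ (n + 1) := by ring
          rw [h2]
          have h3 := mul_le_mul_of_nonneg_left hn (by positivity : 0 ≤ g a + L)
          have h4 : 0 ≤ ((n : ℝ) + 1) * (g a * g a * L ^ n) := by positivity
          push_cast
          have h5 : (g a + L) * (L ^ (n + 1) + ((n : ℝ) + 1) * (g a * L ^ n)) =
              L ^ (n + 1 + 1) + ((n : ℝ) + 1 + 1) * (g a * L ^ (n + 1)) +
                ((n : ℝ) + 1) * (g a * g a * L ^ n) := by ring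
          linarith
      rw [Nat.factorial_succ]
      push_cast
      rw [le_div_iff₀ (by positivity)]
      rw [Nat.factorial_succ] at e1
      push_cast at e1
      rw [le_div_iff₀ (by positivity)] at e1
      have e4 : g a * el g r s * (((r : ℝ) + 1) * (r.factorial : ℝ)) ≤
          ((r : ℝ) + 1) * (g a * L ^ r) := by
        have e5 : g a * (L ^ r / (r.factorial : ℝ)) * (((r : ℝ) + 1) * (r.factorial : ℝ)) =
            ((r : ℝ) + 1) * (g a * L ^ r) := by
          field_simp
        rw [← e5]
        exact mul_le_mul_of_nonneg_right e2 (by positivity)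
      nlinarith
end Pool.Agent.Helper38.CB
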